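import Pool.Agent.Helper205.RK.QArith
import Pool.Agent.Helper542.RK.Game

set_option autoImplicit false

/-! Primitive recursiveness of the data functions of the game -/

namespace Pool.Agent.Helper205.QA

open Pool.Agent.Helper542.RK

section

variable {α : Type*} [Primcodable α]

theorem prim_mem {β : Type*} [Primcodable β] [DecidableEq β] {f : α → β} {l : α → List β}
    (hf : Primrec f) (hl : Primrec l) : PrimrecPred (fun x => f x ∈ l x) := by
  have h1 : PrimrecRel (fun (l : List β) (b : β) => ∃ a ∈ l, a = b) :=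
    PrimrecRel.exists_mem_list (R := fun a b => a = b) Primrec.eq
  have h2 : PrimrecPred (fun x => ∃ a ∈ l x, a = f x) := h1.comp hl hf
  refine h2.of_eq ?_
  intro x
  constructor
  · rintro ⟨a, ha, rfl⟩; exact ha
  · intro h; exact ⟨_, h, rfl⟩

/-! ### the list of replies -/

theorem prim_Mlist {h : α → Hist} (hh : Primrec h) : Primrec (fun x => Mlist (h x)) := by
  unfold Mlist
  exact Primrec.listFilterMap hh (Primrec.snd.comp Primrec.snd)

theorem prim_memM {h : α → Hist} {n : α → ℕ} (hh : Primrec h) (hn : Primrec n) :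
    PrimrecPred (fun x => n x ∈ Mlist (h x)) := prim_mem hn (prim_Mlist hh)

/-! ### records -/

theorem prim_ustep : Primrec (fun p : (ℕ × (List ℕ × ℕ)) × (ℕ × Option ℕ) =>
    ustep p.1.1 p.1.2 p.2) := by
  have h1 : Primrec (fun p : (ℕ × (List ℕ × ℕ)) × (ℕ × Option ℕ) => p.2.2) :=
    Primrec.snd.comp Primrec.snd
  have hx : Primrec (fun p : (ℕ × (List ℕ × ℕ)) × (ℕ × Option ℕ) => p.1.1) :=
    Primrec.fst.comp Primrec.fst
  have hU : Primrec (fun p : (ℕ × (List ℕ × ℕ)) × (ℕ × Option ℕ) => p.1.2.1) :=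
    Primrec.fst.comp (Primrec.snd.comp Primrec.fst)
  have hz : Primrec (fun p : (ℕ × (List ℕ × ℕ)) × (ℕ × Option ℕ) => p.1.2.2) :=
    Primrec.snd.comp (Primrec.snd.comp Primrec.fst)
  have ha : Primrec (fun p : (ℕ × (List ℕ × ℕ)) × (ℕ × Option ℕ) => p.2.1) :=
    Primrec.fst.comp Primrec.snd
  have hcons : Primrec (fun p : (ℕ × (List ℕ × ℕ)) × (ℕ × Option ℕ) => p.2.1 :: p.1.2.1) :=
    Primrec.list_cons.comp ha hU
  have hnone : Primrec (fun p : (ℕ × (List ℕ × ℕ)) × (ℕ × Option ℕ) =>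
      (p.2.1 :: p.1.2.1, p.1.2.2)) := Primrec.pair hcons hz
  have hsome : Primrec₂ (fun (p : (ℕ × (List ℕ × ℕ)) × (ℕ × Option ℕ)) (e : ℕ) =>
      (([] : List ℕ), if p.1.1 ∈ p.2.1 :: p.1.2.1 then e else min p.1.2.2 e)) := by
    refine Primrec.pair (Primrec.const _) ?_
    refine Primrec.ite (prim_mem (hx.comp Primrec.fst) (hcons.comp Primrec.fst)) Primrec.snd ?_
    exact Primrec.nat_min.comp (hz.comp Primrec.fst) Primrec.snd
  have h2 := Primrec.option_casesOn h1 hnone hsome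
  refine h2.of_eq ?_
  rintro ⟨⟨x, U, z⟩, a, r⟩
  cases r <;> rfl

theorem prim_uz {h : α → Hist} {n : α → ℕ} (hh : Primrec h) (hn : Primrec n) :
    Primrec (fun x => uz (h x) (n x)) := by
  unfold uz
  have h1 : Primrec₂ (fun (x : α) (p : (List ℕ × ℕ) × (ℕ × Option ℕ)) =>
      ustep (n x) p.1 p.2) := by
    have h2 : Primrec (fun (q : α × ((List ℕ × ℕ) × (ℕ × Option ℕ))) =>
        (((n q.1, q.2.1), q.2.2) : (ℕ × (List ℕ × ℕ)) × (ℕ × Option ℕ))) :=
      Primrec.pair (Primrec.pair (hn.comp Primrec.fst) (Primrec.fst.comp Primrec.snd))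
        (Primrec.snd.comp Primrec.snd)
    exact prim_ustep.comp h2
  exact Primrec.list_foldl hh (Primrec.const _) h1

theorem prim_zOf {h : α → Hist} {n : α → ℕ} (hh : Primrec h) (hn : Primrec n) :
    Primrec (fun x => zOf (h x) (n x)) := Primrec.snd.comp (prim_uz hh hn)

theorem prim_Ulist {h : α → Hist} (hh : Primrec h) : Primrec (fun x => Ulist (h x)) :=
  Primrec.fst.comp (prim_uz hh (Primrec.const 0))

theorem prim_memU {h : α → Hist} {n : α → ℕ} (hh : Primrec h) (hn : Primrec n) :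
    PrimrecPred (fun x => n x ∈ Ulist (h x)) := prim_mem hn (prim_Ulist hh)

/-! ### amounts -/

/-- code of the amount -/
def alQ (l : List (ℕ × ℕ)) (x : ℕ) : Qc :=
  ((l.getD x (0, 0)).1, 0, (l.getD x (0, 0)).2)

theorem qv_alQ (l : List (ℕ × ℕ)) (x : ℕ) : qv (alQ l x) = alOf l x := by
  unfold qv alQ alOf
  simp

theorem prim_alQ {l : α → List (ℕ × ℕ)} {n : α → ℕ} (hl : Primrec l) (hn : Primrec n) :
    Primrec (fun x => alQ (l x) (n x)) := by
  have h1 : Primrec (fun x => (l x).getD (n x) (0, 0)) := (Primrec.list_getD (0, 0)).comp hl hn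
  exact prim_mk (Primrec.fst.comp h1) (Primrec.const 0) (Primrec.snd.comp h1)

/-! ### zone counts -/

/-- a bound of all positions in the list -/
def zbd (l : List (ℕ × ℕ × ℕ)) : ℕ := l.foldl (fun s p => s + p.2.2 + 1) 0

theorem zbd_aux (l : List (ℕ × ℕ × ℕ)) : ∀ s : ℕ,
    s ≤ l.foldl (fun s p => s + p.2.2 + 1) s ∧
    ∀ p ∈ l, p.2.2 < l.foldl (fun s p => s + p.2.2 + 1) s := by
  induction l with
  | nil => intro s; simp
  | cons a l ih =>
    intro s
    rw [List.foldl_cons]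
    obtain ⟨h1, h2⟩ := ih (s + a.2.2 + 1)
    refine ⟨by omega, ?_⟩
    intro p hp
    rcases List.mem_cons.1 hp with h | h
    · subst h; omega
    · exact h2 p h

theorem lt_zbd {l : List (ℕ × ℕ × ℕ)} {p : ℕ × ℕ × ℕ} (hp : p ∈ l) : p.2.2 < zbd l :=
  (zbd_aux l 0).2 p hp

/-- the number of zone-counted tokens -/
def czc (l : List (ℕ × ℕ × ℕ)) (i q : ℕ) : ℕ :=
  ncount (zbd l) (fun x => decide ((i, q, x) ∈ l))

theorem mem_zcOf {l : List (ℕ × ℕ × ℕ)} {i q x : ℕ} : x ∈ zcOf l i q ↔ (i, q, x) ∈ l := by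
  unfold zcOf
  rw [List.mem_toFinset, List.mem_map]
  constructor
  · rintro ⟨p, hp, rfl⟩
    rw [List.mem_filter] at hp
    obtain ⟨h1, h2⟩ := hp
    simp only [decide_eq_true_eq] at h2
    obtain ⟨rfl, rfl⟩ := h2
    exact h1
  · intro h
    refine ⟨(i, q, x), ?_, rfl⟩
    rw [List.mem_filter]
    exact ⟨h, by simp⟩

theorem czc_eq (l : List (ℕ × ℕ × ℕ)) (i q : ℕ) : czc l i q = (zcOf l i q).card := by
  unfold czc
  rw [ncount_eq]
  congr 1
  ext x
  rw [Finset.mem_filter, Finset.mem_range, mem_zcOf, decide_eq_true_eq]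
  constructor
  · exact fun h => h.2
  · exact fun h => ⟨lt_zbd h, h⟩

theorem prim_zbd {l : α → List (ℕ × ℕ × ℕ)} (hl : Primrec l) : Primrec (fun x => zbd (l x)) := by
  unfold zbd
  have h1 : Primrec₂ (fun (_ : α) (p : ℕ × (ℕ × ℕ × ℕ)) => p.1 + p.2.2.2 + 1) :=
    prim_succ (prim_add (Primrec.fst.comp Primrec.snd)
      (Primrec.snd.comp (Primrec.snd.comp (Primrec.snd.comp Primrec.snd))))
  exact Primrec.list_foldl hl (Primrec.const _) h1

theorem prim_czc {l : α → List (ℕ × ℕ × ℕ)} {i q : α → ℕ} (hl : Primrec l) (hi : Primrec i)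
    (hq : Primrec q) : Primrec (fun x => czc (l x) (i x) (q x)) := by
  unfold czc
  refine prim_ncount (prim_zbd hl) ?_
  have h1 : PrimrecPred (fun p : α × ℕ => (i p.1, q p.1, p.2) ∈ l p.1) :=
    prim_mem (Primrec.pair (hi.comp Primrec.fst) (Primrec.pair (hq.comp Primrec.fst) Primrec.snd))
      (hl.comp Primrec.fst)
  exact primrecPred_iff_primrec_decide.1 h1

end

end Pool.Agent.Helper205.QA
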