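import Pool.Agent.Helper205.RK.QArith
import Pool.Agent.Helper923.RK.ParamDef

set_option autoImplicit false

/-! Primitive recursive codes of the parameters -/

namespace Pool.Agent.Helper205.QA

open Pool.Agent.Helper542.RK

/-! ### positivity -/

theorem EC_pos (i : ℕ) : 0 < EC i := by unfold EC; positivity
theorem aC_pos (i : ℕ) : 0 < aC i := by have := EC_pos i; unfold aC; positivity
theorem NC_pos (i : ℕ) : 0 < NC i := by unfold NC; positivity
theorem ZC_pos (i : ℕ) : 0 < ZC i := by unfold ZC; positivity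
theorem tC_pos (i : ℕ) : 0 < tC i := by unfold tC; positivity
theorem L0C_pos : 0 < L0C := by unfold L0C; positivity
theorem LC_pos (i : ℕ) : 0 < LC i := by
  induction i with
  | zero => exact L0C_pos
  | succ i ih =>
    have h1 : LC (i+1) = LC i * NC i := rfl
    rw [h1]; exact Nat.mul_pos ih (NC_pos i)

theorem PWC_pos (i : ℕ) : 0 < phC i ∧ 0 < wC i := by
  induction i with
  | zero =>
    have h1 : phC 0 = (L0C : ℚ) / 16 := rfl
    have h2 : wC 0 = (tC 0 : ℚ) / ((L0C : ℚ) / 16) * aC 0 := rfl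
    have h3 : (0 : ℚ) < L0C := by exact_mod_cast L0C_pos
    have h4 : (0 : ℚ) < tC 0 := by exact_mod_cast tC_pos 0
    have h5 := aC_pos 0
    rw [h1, h2]
    constructor <;> positivity
  | succ i ih =>
    have h1 : phC (i+1) = (NC i : ℚ) * EC i + wC i * (2 * ((ZC i * LC i : ℕ) : ℚ)) := rfl
    have h2 : wC (i+1) = wC i * ((tC (i+1) : ℚ) / phC (i+1) * aC (i+1)) := rfl
    have h3 : (0 : ℚ) < NC i := by exact_mod_cast NC_pos i
    have h4 : (0 : ℚ) < tC (i+1) := by exact_mod_cast tC_pos (i+1)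
    have h5 := aC_pos (i+1)
    have h6 := EC_pos i
    have h7 := ih.2
    have h8 : (0 : ℚ) ≤ ((ZC i * LC i : ℕ) : ℚ) := Nat.cast_nonneg _
    have h9 : 0 < phC (i+1) := by rw [h1]; positivity
    exact ⟨h9, by rw [h2]; positivity⟩

theorem phC_pos (i : ℕ) : 0 < phC i := (PWC_pos i).1
theorem wC_pos (i : ℕ) : 0 < wC i := (PWC_pos i).2

theorem gamC_pos (i : ℕ) : 0 < gamC i := by
  induction i using Nat.strong_induction_on with
  | _ i ih =>
    match i with
    | 0 => have : gamC 0 = 1 := by rw [gamC]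
           rw [this]; norm_num
    | 1 => have : gamC 1 = 3/2 := by rw [gamC]
           rw [this]; norm_num
    | (i+2) =>
      have h1 : gamC (i+2) = gamC (i+1) * (1 + 1 / 2 ^ (i + 1 + 6)) := by rw [gamC]
      have h2 := ih (i+1) (by omega)
      rw [h1]; positivity

/-! ### codes -/

def EQ (i : ℕ) : Qc := qpow (5, 0, 3) (4 * tC i)
def aQ (i : ℕ) : Qc := qmul (qnat 9) (EQ i)
def PWQ : ℕ → Qc × Qc
  | 0 => (qdiv (qnat L0C) (qnat 16), qmul (qdiv (qnat (tC 0)) (qdiv (qnat L0C) (qnat 16))) (aQ 0))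
  | (i+1) =>
    (qadd (qmul (qnat (NC i)) (EQ i)) (qmul (PWQ i).2 (qnat (2 * (ZC i * LC i)))),
      qmul (PWQ i).2 (qmul (qdiv (qnat (tC (i+1)))
        (qadd (qmul (qnat (NC i)) (EQ i)) (qmul (PWQ i).2 (qnat (2 * (ZC i * LC i))))))
          (aQ (i+1))))
def phQ (i : ℕ) : Qc := (PWQ i).1
def wQ (i : ℕ) : Qc := (PWQ i).2
def lamQ (i : ℕ) : Qc := qdiv (qnat (tC i)) (phQ i)
def baseQ (i : ℕ) (a : Qc) : Qc := qadd (qnat 1) (qdiv a (qmul (qnat 4) (phQ i)))
def fQ (i : ℕ) (a : Qc) : Qc := qpow (baseQ i a) (4 * tC i)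
def gQ (i : ℕ) (a : Qc) : Qc := qmul (lamQ i) (qpow (baseQ i a) (4 * tC i - 1))
def epsQ (i : ℕ) : Qc := qinv (qnat (KC * 2 ^ (i + 10)))
def G2Q : Qc := qnat (5888 * 160)
def gamQ (i : ℕ) : Qc := Nat.rec (qnat 1)
  (fun k c => if k = 0 then (3, 0, 1) else qmul c (qadd (qnat 1) (qinv (qnat (2 ^ (k + 6)))))) i

theorem qv_E (i : ℕ) : qv (EQ i) = EC i := by
  unfold EQ EC
  rw [qv_pow]
  congr 1
  norm_num [qv]

theorem qv_a (i : ℕ) : qv (aQ i) = aC i := by
  unfold aQ aC
  rw [qv_mul, qv_nat, qv_E]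
  norm_num

theorem qv_PW (i : ℕ) : qv (phQ i) = phC i ∧ qv (wQ i) = wC i := by
  induction i with
  | zero =>
    have h3 : (0 : ℚ) < L0C := by exact_mod_cast L0C_pos
    have h16 : 0 < qv (qnat 16) := by rw [qv_nat]; norm_num
    have e0 : phQ 0 = qdiv (qnat L0C) (qnat 16) := by unfold phQ; rw [PWQ]
    have e1 : phC 0 = (L0C : ℚ) / 16 := by unfold phC; rw [PWC]
    have e2 : wQ 0 = qmul (qdiv (qnat (tC 0)) (qdiv (qnat L0C) (qnat 16))) (aQ 0) := by
      unfold wQ; rw [PWQ]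
    have e3 : wC 0 = (tC 0 : ℚ) / ((L0C : ℚ) / 16) * aC 0 := by unfold wC; rw [PWC]
    have h1 : qv (phQ 0) = phC 0 := by
      rw [e0, e1, qv_div _ _ h16, qv_nat, qv_nat]; norm_num
    refine ⟨h1, ?_⟩
    rw [e2, e3, ← e0, ← e1, qv_mul, qv_div _ _ (by rw [h1]; exact phC_pos 0), h1, qv_nat, qv_a]
  | succ i ih =>
    have h1 : qv (phQ (i+1)) = phC (i+1) := by
      change qv (qadd (qmul (qnat (NC i)) (EQ i)) (qmul (wQ i) (qnat (2 * (ZC i * LC i))))) =
        (NC i : ℚ) * EC i + wC i * (2 * ((ZC i * LC i : ℕ) : ℚ))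
      rw [qv_add, qv_mul, qv_mul, qv_nat, qv_nat, qv_E, ih.2]
      push_cast
      ring
    refine ⟨h1, ?_⟩
    change qv (qmul (wQ i) (qmul (qdiv (qnat (tC (i+1))) (phQ (i+1))) (aQ (i+1)))) =
      wC i * ((tC (i+1) : ℚ) / phC (i+1) * aC (i+1))
    rw [qv_mul, qv_mul, qv_div _ _ (by rw [h1]; exact phC_pos (i+1)), h1, qv_nat, qv_a, ih.2]

theorem qv_ph (i : ℕ) : qv (phQ i) = phC i := (qv_PW i).1
theorem qv_w (i : ℕ) : qv (wQ i) = wC i := (qv_PW i).2

theorem qv_lam (i : ℕ) : qv (lamQ i) = lamC i := by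
  unfold lamQ lamC
  rw [qv_div _ _ (by rw [qv_ph]; exact phC_pos i), qv_nat, qv_ph]

theorem qv_base (i : ℕ) (a : Qc) : qv (baseQ i a) = 1 + qv a / (4 * phC i) := by
  unfold baseQ
  have h1 : qv (qmul (qnat 4) (phQ i)) = 4 * phC i := by
    rw [qv_mul, qv_nat, qv_ph]; norm_num
  have h2 := phC_pos i
  rw [qv_add, qv_div _ _ (by rw [h1]; positivity), h1, qv_nat]
  norm_num

theorem qv_f (i : ℕ) (a : Qc) : qv (fQ i a) = fC i (qv a) := by
  unfold fQ fC
  rw [qv_pow, qv_base]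

theorem qv_g (i : ℕ) (a : Qc) : qv (gQ i a) = gC i (qv a) := by
  unfold gQ gC
  rw [qv_mul, qv_pow, qv_base, qv_lam]

theorem qv_eps (i : ℕ) : qv (epsQ i) = epsC i := by
  unfold epsQ epsC
  have hK : 0 < KC := by
    unfold KC; have := L0C_pos; omega
  have h1 : 0 < qv (qnat (KC * 2 ^ (i + 10))) := by
    rw [qv_nat]
    have : 0 < KC * 2 ^ (i+10) := by positivity
    exact_mod_cast this
  rw [qv_inv _ h1, qv_nat]
  push_cast
  rw [one_div]

theorem qv_G2 : qv G2Q = G2C := by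
  unfold G2Q G2C
  rw [qv_nat]
  norm_num

theorem qv_gam (i : ℕ) : qv (gamQ i) = gamC i := by
  induction i with
  | zero =>
    have h1 : gamC 0 = 1 := by rw [gamC]
    rw [h1]
    change qv (qnat 1) = 1
    rw [qv_nat]; norm_num
  | succ i ih =>
    cases i with
    | zero =>
      have h1 : gamC 1 = 3/2 := by rw [gamC]
      have e1 : gamQ 1 = (3, 0, 1) := rfl
      rw [h1, e1]
      norm_num [qv]
    | succ i =>
      have h1 : gamC (i+2) = gamC (i+1) * (1 + 1 / 2 ^ (i + 1 + 6)) := by rw [gamC]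
      rw [h1, ← ih]
      change qv (if (i+1:ℕ) = 0 then (3, 0, 1) else qmul (gamQ (i+1))
        (qadd (qnat 1) (qinv (qnat (2 ^ (i + 1 + 6)))))) = _
      rw [if_neg (Nat.succ_ne_zero i)]
      have h2 : 0 < qv (qnat (2 ^ (i + 1 + 6))) := by
        rw [qv_nat]; positivity
      rw [qv_mul, qv_add, qv_inv _ h2, qv_nat, qv_nat]
      push_cast
      rw [one_div]

/-! ### primitive recursiveness -/

section prim

variable {α : Type*} [Primcodable α] {i : α → ℕ} {a : α → Qc}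

theorem prim_tC (hi : Primrec i) : Primrec (fun x => tC (i x)) := by
  unfold tC
  exact prim_mul (prim_const _) (prim_npow (prim_const _) hi)

theorem prim_NC (hi : Primrec i) : Primrec (fun x => NC (i x)) := by
  unfold NC
  exact prim_npow (prim_const _) (prim_tC hi)

theorem prim_ZC (hi : Primrec i) : Primrec (fun x => ZC (i x)) := by
  unfold ZC
  exact prim_npow (prim_const _) (prim_mul (prim_const _) (prim_npow (prim_const _) hi))

theorem prim_LC (hi : Primrec i) : Primrec (fun x => LC (i x)) := by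
  have h2 : Primrec₂ (fun (_ : α) (p : ℕ × ℕ) => p.2 * NC p.1) :=
    prim_mul (Primrec.snd.comp Primrec.snd) (prim_NC (Primrec.fst.comp Primrec.snd))
  have h1 := Primrec.nat_rec' (f := i) (g := fun _ => L0C) hi (Primrec.const _) h2
  refine h1.of_eq ?_
  intro x
  generalize i x = n
  induction n with
  | zero => rfl
  | succ n ih =>
    have h3 : LC (n+1) = LC n * NC n := rfl
    rw [h3, ← ih]

theorem prim_EQ (hi : Primrec i) : Primrec (fun x => EQ (i x)) := by
  unfold EQ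
  exact prim_qpow (Primrec.const _) (prim_mul (prim_const _) (prim_tC hi))

theorem prim_aQ (hi : Primrec i) : Primrec (fun x => aQ (i x)) := by
  unfold aQ
  exact prim_qmul (Primrec.const _) (prim_EQ hi)

theorem prim_PWQ (hi : Primrec i) : Primrec (fun x => PWQ (i x)) := by
  have hk : Primrec (fun (q : α × (ℕ × (Qc × Qc))) => q.2.1) := Primrec.fst.comp Primrec.snd
  have hw : Primrec (fun (q : α × (ℕ × (Qc × Qc))) => q.2.2.2) :=
    Primrec.snd.comp (Primrec.snd.comp Primrec.snd)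
  have hph : Primrec (fun (q : α × (ℕ × (Qc × Qc))) =>
      qadd (qmul (qnat (NC q.2.1)) (EQ q.2.1)) (qmul q.2.2.2
        (qnat (2 * (ZC q.2.1 * LC q.2.1))))) :=
    prim_qadd (prim_qmul (prim_qnat (prim_NC hk)) (prim_EQ hk))
      (prim_qmul hw (prim_qnat (prim_mul (prim_const 2) (prim_mul (prim_ZC hk) (prim_LC hk)))))
  have h2 : Primrec₂ (fun (_ : α) (p : ℕ × (Qc × Qc)) =>
      ((qadd (qmul (qnat (NC p.1)) (EQ p.1)) (qmul p.2.2 (qnat (2 * (ZC p.1 * LC p.1)))),
      qmul p.2.2 (qmul (qdiv (qnat (tC (p.1+1)))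
        (qadd (qmul (qnat (NC p.1)) (EQ p.1)) (qmul p.2.2 (qnat (2 * (ZC p.1 * LC p.1))))))
          (aQ (p.1+1)))) : Qc × Qc)) :=
    Primrec.pair hph (prim_qmul hw (prim_qmul (prim_qdiv (prim_qnat (prim_tC (prim_succ hk))) hph)
      (prim_aQ (prim_succ hk))))
  have h1 := Primrec.nat_rec' (f := i) (g := fun _ => PWQ 0) hi (Primrec.const _) h2
  refine h1.of_eq ?_
  intro x
  generalize i x = n
  induction n with
  | zero => rfl
  | succ n ih =>
    simp only at ih ⊢
    rw [ih]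
    rfl

theorem prim_phQ (hi : Primrec i) : Primrec (fun x => phQ (i x)) := Primrec.fst.comp (prim_PWQ hi)
theorem prim_wQ (hi : Primrec i) : Primrec (fun x => wQ (i x)) := Primrec.snd.comp (prim_PWQ hi)
theorem prim_lamQ (hi : Primrec i) : Primrec (fun x => lamQ (i x)) :=
  prim_qdiv (prim_qnat (prim_tC hi)) (prim_phQ hi)
theorem prim_baseQ (hi : Primrec i) (ha : Primrec a) : Primrec (fun x => baseQ (i x) (a x)) :=
  prim_qadd (Primrec.const _) (prim_qdiv ha (prim_qmul (Primrec.const _) (prim_phQ hi)))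
theorem prim_fQ (hi : Primrec i) (ha : Primrec a) : Primrec (fun x => fQ (i x) (a x)) :=
  prim_qpow (prim_baseQ hi ha) (prim_mul (prim_const _) (prim_tC hi))
theorem prim_gQ (hi : Primrec i) (ha : Primrec a) : Primrec (fun x => gQ (i x) (a x)) :=
  prim_qmul (prim_lamQ hi) (prim_qpow (prim_baseQ hi ha)
    (prim_sub (prim_mul (prim_const _) (prim_tC hi)) (prim_const 1)))
theorem prim_epsQ (hi : Primrec i) : Primrec (fun x => epsQ (i x)) :=
  prim_qinv (prim_qnat (prim_mul (prim_const _)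
    (prim_npow (prim_const _) (prim_add hi (prim_const 10)))))
theorem prim_gamQ (hi : Primrec i) : Primrec (fun x => gamQ (i x)) := by
  have hk : Primrec (fun (q : α × (ℕ × Qc)) => q.2.1) := Primrec.fst.comp Primrec.snd
  have h2 : Primrec₂ (fun (_ : α) (p : ℕ × Qc) => if p.1 = 0 then ((3, 0, 1) : Qc) else
      qmul p.2 (qadd (qnat 1) (qinv (qnat (2 ^ (p.1 + 6)))))) := by
    refine Primrec.ite (Primrec.eq.comp hk (Primrec.const 0)) (Primrec.const _) ?_
    exact prim_qmul (Primrec.snd.comp Primrec.snd) (prim_qadd (Primrec.const _)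
      (prim_qinv (prim_qnat (prim_npow (prim_const 2) (prim_add hk (prim_const 6))))))
  exact Primrec.nat_rec' (f := i) (g := fun _ => qnat 1) hi (Primrec.const _) h2

end prim

end Pool.Agent.Helper205.QA
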