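import Mathlib

set_option autoImplicit false

/-! Rational arithmetic by primitive recursive functions on codes `(p, q, r)`,
with value `(p - q) / (r + 1)`. -/

namespace Pool.Agent.Helper205.QA

/-- codes of rationals -/
abbrev Qc := ℕ × ℕ × ℕ

/-- value -/
def qv (a : Qc) : ℚ := ((a.1 : ℚ) - (a.2.1 : ℚ)) / ((a.2.2 : ℚ) + 1)

/-- code of a natural number -/
def qnat (n : ℕ) : Qc := (n, 0, 0)

def qadd (a b : Qc) : Qc :=
  (a.1 * (b.2.2 + 1) + b.1 * (a.2.2 + 1),
   a.2.1 * (b.2.2 + 1) + b.2.1 * (a.2.2 + 1),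
   (a.2.2 + 1) * (b.2.2 + 1) - 1)

def qneg (a : Qc) : Qc := (a.2.1, a.1, a.2.2)

def qsub (a b : Qc) : Qc := qadd a (qneg b)

def qmul (a b : Qc) : Qc :=
  (a.1 * b.1 + a.2.1 * b.2.1, a.1 * b.2.1 + a.2.1 * b.1,
   (a.2.2 + 1) * (b.2.2 + 1) - 1)

/-- inverse of a code with positive value -/
def qinv (a : Qc) : Qc := (a.2.2 + 1, 0, (a.1 - a.2.1) - 1)

/-- quotient by a code with positive value -/
def qdiv (a b : Qc) : Qc := qmul a (qinv b)

/-- powers -/
def qpow (a : Qc) (n : ℕ) : Qc := Nat.rec (qnat 1) (fun _ c => qmul a c) n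

/-- comparison -/
def qle (a b : Qc) : Prop :=
  a.1 * (b.2.2 + 1) + b.2.1 * (a.2.2 + 1) ≤ b.1 * (a.2.2 + 1) + a.2.1 * (b.2.2 + 1)

instance (a b : Qc) : Decidable (qle a b) := by unfold qle; infer_instance

theorem qv_nat (n : ℕ) : qv (qnat n) = n := by simp [qv, qnat]

theorem pred_mul_cast (a b : ℕ) : (((a + 1) * (b + 1) - 1 : ℕ) : ℚ) + 1 = (a + 1) * (b + 1) := by
  have h : 1 ≤ (a + 1) * (b + 1) := Nat.one_le_iff_ne_zero.2 (by positivity)
  rw [Nat.cast_sub h]
  push_cast
  ring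

theorem qv_add (a b : Qc) : qv (qadd a b) = qv a + qv b := by
  have h1 : ((a.2.2 : ℚ) + 1) ≠ 0 := by positivity
  have h2 : ((b.2.2 : ℚ) + 1) ≠ 0 := by positivity
  unfold qv qadd
  simp only
  rw [pred_mul_cast]
  push_cast
  field_simp
  ring

theorem qv_neg (a : Qc) : qv (qneg a) = - qv a := by
  unfold qv qneg
  simp only
  ring

theorem qv_sub (a b : Qc) : qv (qsub a b) = qv a - qv b := by
  rw [qsub, qv_add, qv_neg]; ring

theorem qv_mul (a b : Qc) : qv (qmul a b) = qv a * qv b := by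
  have h1 : ((a.2.2 : ℚ) + 1) ≠ 0 := by positivity
  have h2 : ((b.2.2 : ℚ) + 1) ≠ 0 := by positivity
  unfold qv qmul
  simp only
  rw [pred_mul_cast]
  push_cast
  field_simp
  ring

theorem qv_pos_iff (a : Qc) : 0 < qv a ↔ a.2.1 < a.1 := by
  unfold qv
  rw [div_pos_iff_of_pos_right (by positivity)]
  rw [sub_pos]
  exact_mod_cast Iff.rfl

theorem qv_inv (a : Qc) (h : 0 < qv a) : qv (qinv a) = (qv a)⁻¹ := by
  have h' := (qv_pos_iff a).1 h
  unfold qv qinv
  simp only
  have h1 : ((a.1 - a.2.1 - 1 : ℕ) : ℚ) + 1 = (a.1 : ℚ) - a.2.1 := by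
    rw [Nat.cast_sub (by omega), Nat.cast_sub h'.le]
    push_cast; ring
  rw [h1, inv_div]
  push_cast
  ring

theorem qv_div (a b : Qc) (h : 0 < qv b) : qv (qdiv a b) = qv a / qv b := by
  rw [qdiv, qv_mul, qv_inv b h, div_eq_mul_inv]

theorem qv_pow (a : Qc) (n : ℕ) : qv (qpow a n) = qv a ^ n := by
  induction n with
  | zero => simp [qpow, qv_nat]
  | succ n ih =>
    have : qpow a (n+1) = qmul a (qpow a n) := rfl
    rw [this, qv_mul, ih, pow_succ]
    ring

theorem qle_iff (a b : Qc) : qle a b ↔ qv a ≤ qv b := by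
  unfold qle qv
  rw [div_le_div_iff₀ (by positivity) (by positivity)]
  constructor
  · intro h
    have h' : ((a.1 * (b.2.2 + 1) + b.2.1 * (a.2.2 + 1) : ℕ) : ℚ) ≤
      ((b.1 * (a.2.2 + 1) + a.2.1 * (b.2.2 + 1) : ℕ) : ℚ) := by exact_mod_cast h
    push_cast at h'
    linarith
  · intro h
    have h' : ((a.1 * (b.2.2 + 1) + b.2.1 * (a.2.2 + 1) : ℕ) : ℚ) ≤
      ((b.1 * (a.2.2 + 1) + a.2.1 * (b.2.2 + 1) : ℕ) : ℚ) := by push_cast; linarith
    exact_mod_cast h'

/-- every rational has a code -/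
theorem qv_surj (x : ℚ) : ∃ a, qv a = x := by
  refine ⟨(x.num.toNat, (-x.num).toNat, x.den - 1), ?_⟩
  unfold qv
  simp only
  have h1 : ((x.den - 1 : ℕ) : ℚ) + 1 = x.den := by
    have := x.den_pos
    rw [Nat.cast_sub (by omega)]
    push_cast; ring
  rw [h1]
  have h2 : ((x.num.toNat : ℕ) : ℚ) - (((-x.num).toNat : ℕ) : ℚ) = x.num := by
    have h3 : ((x.num.toNat : ℕ) : ℤ) - (((-x.num).toNat : ℕ) : ℤ) = x.num := by omega
    exact_mod_cast h3
  rw [h2, Rat.num_div_den]

/-! ### primitive recursiveness -/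

section prim

variable {α : Type*} [Primcodable α] {f g : α → Qc} {h : α → ℕ}

theorem prim_mk {a b c : α → ℕ} (ha : Primrec a) (hb : Primrec b) (hc : Primrec c) :
    Primrec (fun x => ((a x, b x, c x) : Qc)) := Primrec.pair ha (Primrec.pair hb hc)

theorem prim_p (hf : Primrec f) : Primrec (fun x => (f x).1) := Primrec.fst.comp hf
theorem prim_q (hf : Primrec f) : Primrec (fun x => (f x).2.1) :=
  Primrec.fst.comp (Primrec.snd.comp hf)
theorem prim_r (hf : Primrec f) : Primrec (fun x => (f x).2.2) :=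
  Primrec.snd.comp (Primrec.snd.comp hf)

theorem prim_add {a b : α → ℕ} (ha : Primrec a) (hb : Primrec b) :
    Primrec (fun x => a x + b x) := Primrec.nat_add.comp ha hb
theorem prim_mul {a b : α → ℕ} (ha : Primrec a) (hb : Primrec b) :
    Primrec (fun x => a x * b x) := Primrec.nat_mul.comp ha hb
theorem prim_sub {a b : α → ℕ} (ha : Primrec a) (hb : Primrec b) :
    Primrec (fun x => a x - b x) := Primrec.nat_sub.comp ha hb
theorem prim_div {a b : α → ℕ} (ha : Primrec a) (hb : Primrec b) :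
    Primrec (fun x => a x / b x) := Primrec.nat_div.comp ha hb
theorem prim_const (n : ℕ) : Primrec (fun _ : α => n) := Primrec.const n
theorem prim_succ {a : α → ℕ} (ha : Primrec a) : Primrec (fun x => a x + 1) :=
  Primrec.succ.comp ha

theorem prim_npow {a b : α → ℕ} (ha : Primrec a) (hb : Primrec b) :
    Primrec (fun x => a x ^ b x) := by
  have hh : Primrec₂ (fun (x : α) (p : ℕ × ℕ) => p.2 * a x) :=
    Primrec.nat_mul.comp (Primrec.snd.comp Primrec.snd) (ha.comp Primrec.fst)
  have h1 := Primrec.nat_rec' (f := b) (g := fun _ => (1 : ℕ)) hb (Primrec.const 1) hh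
  refine h1.of_eq ?_
  intro x
  generalize b x = n
  induction n with
  | zero => simp
  | succ n ih => rw [pow_succ, ← ih]

theorem prim_qnat (hh : Primrec h) : Primrec (fun x => qnat (h x)) :=
  prim_mk hh (prim_const 0) (prim_const 0)

theorem prim_qadd (hf : Primrec f) (hg : Primrec g) : Primrec (fun x => qadd (f x) (g x)) :=
  prim_mk
    (prim_add (prim_mul (prim_p hf) (prim_succ (prim_r hg)))
      (prim_mul (prim_p hg) (prim_succ (prim_r hf))))
    (prim_add (prim_mul (prim_q hf) (prim_succ (prim_r hg)))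
      (prim_mul (prim_q hg) (prim_succ (prim_r hf))))
    (prim_sub (prim_mul (prim_succ (prim_r hf)) (prim_succ (prim_r hg))) (prim_const 1))

theorem prim_qneg (hf : Primrec f) : Primrec (fun x => qneg (f x)) :=
  prim_mk (prim_q hf) (prim_p hf) (prim_r hf)

theorem prim_qsub (hf : Primrec f) (hg : Primrec g) : Primrec (fun x => qsub (f x) (g x)) :=
  prim_qadd hf (prim_qneg hg)

theorem prim_qmul (hf : Primrec f) (hg : Primrec g) : Primrec (fun x => qmul (f x) (g x)) :=
  prim_mk
    (prim_add (prim_mul (prim_p hf) (prim_p hg)) (prim_mul (prim_q hf) (prim_q hg)))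
    (prim_add (prim_mul (prim_p hf) (prim_q hg)) (prim_mul (prim_q hf) (prim_p hg)))
    (prim_sub (prim_mul (prim_succ (prim_r hf)) (prim_succ (prim_r hg))) (prim_const 1))

theorem prim_qinv (hf : Primrec f) : Primrec (fun x => qinv (f x)) :=
  prim_mk (prim_succ (prim_r hf)) (prim_const 0)
    (prim_sub (prim_sub (prim_p hf) (prim_q hf)) (prim_const 1))

theorem prim_qdiv (hf : Primrec f) (hg : Primrec g) : Primrec (fun x => qdiv (f x) (g x)) :=
  prim_qmul hf (prim_qinv hg)

theorem prim_qpow (hf : Primrec f) (hh : Primrec h) : Primrec (fun x => qpow (f x) (h x)) := by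
  have h2 : Primrec₂ (fun (x : α) (p : ℕ × Qc) => qmul (f x) p.2) :=
    prim_qmul (hf.comp Primrec.fst) (Primrec.snd.comp Primrec.snd)
  exact Primrec.nat_rec' (f := h) (g := fun _ => qnat 1) hh (Primrec.const _) h2

theorem prim_qle (hf : Primrec f) (hg : Primrec g) : PrimrecPred (fun x => qle (f x) (g x)) :=
  Primrec.nat_le.comp
    (prim_add (prim_mul (prim_p hf) (prim_succ (prim_r hg)))
      (prim_mul (prim_q hg) (prim_succ (prim_r hf))))
    (prim_add (prim_mul (prim_p hg) (prim_succ (prim_r hf)))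
      (prim_mul (prim_q hf) (prim_succ (prim_r hg))))

end prim

/-- `∑ x < n, f x` on codes -/
def qsum (n : ℕ) (f : ℕ → Qc) : Qc := Nat.rec (qnat 0) (fun k c => qadd c (f k)) n

theorem qv_sum (n : ℕ) (f : ℕ → Qc) : qv (qsum n f) = ∑ x ∈ Finset.range n, qv (f x) := by
  induction n with
  | zero => simp [qsum, qv_nat]
  | succ n ih =>
    have : qsum (n+1) f = qadd (qsum n f) (f n) := rfl
    rw [this, qv_add, ih, Finset.sum_range_succ]

theorem prim_qsum {α : Type*} [Primcodable α] {n : α → ℕ} {f : α → ℕ → Qc}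
    (hn : Primrec n) (hf : Primrec₂ f) : Primrec (fun x => qsum (n x) (f x)) := by
  have h2 : Primrec₂ (fun (x : α) (p : ℕ × Qc) => qadd p.2 (f x p.1)) :=
    prim_qadd (Primrec.snd.comp Primrec.snd)
      (hf.comp Primrec.fst (Primrec.fst.comp Primrec.snd))
  exact Primrec.nat_rec' (f := n) (g := fun _ => qnat 0) hn (Primrec.const _) h2

/-- counting `#{x < n | p x}` -/
def ncount (n : ℕ) (p : ℕ → Bool) : ℕ := Nat.rec 0 (fun k c => c + cond (p k) 1 0) n

theorem ncount_eq (n : ℕ) (p : ℕ → Bool) :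
    ncount n p = ((Finset.range n).filter (fun x => p x = true)).card := by
  induction n with
  | zero => simp [ncount]
  | succ n ih =>
    have : ncount (n+1) p = ncount n p + cond (p n) 1 0 := rfl
    rw [this, ih, Finset.range_add_one, Finset.filter_insert]
    cases h : p n
    · simp
    · rw [if_pos rfl, Finset.card_insert_of_notMem (by simp)]
      simp

theorem prim_ncount {α : Type*} [Primcodable α] {n : α → ℕ} {p : α → ℕ → Bool}
    (hn : Primrec n) (hp : Primrec₂ p) : Primrec (fun x => ncount (n x) (p x)) := by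
  have h2 : Primrec₂ (fun (x : α) (c : ℕ × ℕ) => c.2 + cond (p x c.1) 1 0) :=
    Primrec.nat_add.comp (Primrec.snd.comp Primrec.snd)
      (Primrec.cond (hp.comp Primrec.fst (Primrec.fst.comp Primrec.snd)) (Primrec.const 1)
        (Primrec.const 0))
  exact Primrec.nat_rec' (f := n) (g := fun _ => 0) hn (Primrec.const _) h2

end Pool.Agent.Helper205.QA
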