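import Pool.Agent.Helper205.RK.Data
import Pool.Agent.Helper205.RK.ParamQ
import Pool.Agent.Helper542.RK.Basic

set_option autoImplicit false

/-! Table of potentials and sensitivities, primitive recursive -/

namespace Pool.Agent.Helper205.QA

open Pool.Agent.Helper542.RK

/-- `P` has the explicit parameters -/
structure IsC (P : Par) : Prop where
  N : P.N = NC
  Z : P.Z = ZC
  L : P.L = LC
  f : P.f = fC
  g : P.g = gC
  w : P.w = wC
  gam : P.gam = gamC

/-- code of `Φ_0(q)` -/
def phi0Q (h : Hist) (d : Dt) (q : ℕ) : Qc :=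
  qsub (qadd (qnat (ncount L0C (fun y => decide (q * L0C + y ∈ Mlist h))))
    (qdiv (qnat L0C) (qnat 16)))
    (qsum L0C (fun y => if (q * L0C + y) / L0C < zOf h (q * L0C + y) / L0C then qnat 0
      else alQ d.1 (q * L0C + y)))

/-- code of `S_{i+1}(x)` from tables of class `i` -/
def sS (i : ℕ) (p : List Qc × List Qc) (x : ℕ) : Qc :=
  qmul (gQ i (p.1.getD (x / LC i) (qnat 0))) (p.2.getD x (qnat 0))

/-- code of `Φ_{i+1}(q)` from tables of class `i` -/
def phiS (h : Hist) (d : Dt) (i : ℕ) (p : List Qc × List Qc) (q : ℕ) : Qc :=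
  qsub (qadd (qsum (NC i) (fun r => fQ i (p.1.getD (q * NC i + r) (qnat 0))))
    (qmul (wQ i) (qsub (qnat (2 * (ZC i * LC i))) (qnat (czc d.2 (i+1) q)))))
    (qdiv (qsum (LC (i+1)) (fun y =>
      if ((q * LC (i+1) + y) / LC i < zOf h (q * LC (i+1) + y) / LC i ∧
        ¬ ((q * LC (i+1) + y) / LC (i+1) < zOf h (q * LC (i+1) + y) / LC (i+1))) then
        qmul (alQ d.1 (q * LC (i+1) + y)) (sS i p (q * LC (i+1) + y))
      else qnat 0)) (gamQ (i+1)))

/-- the tables of class `i` inside `[0, L_T)` -/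
def tab (T : ℕ) (h : Hist) (d : Dt) (i : ℕ) : List Qc × List Qc :=
  Nat.rec ((List.range (LC T / LC 0)).map (phi0Q h d), (List.range (LC T)).map (fun _ => qnat 1))
    (fun i p => ((List.range (LC T / LC (i+1))).map (phiS h d i p),
      (List.range (LC T)).map (sS i p))) i

theorem tab_zero (T : ℕ) (h : Hist) (d : Dt) : tab T h d 0 =
  ((List.range (LC T / LC 0)).map (phi0Q h d), (List.range (LC T)).map (fun _ => qnat 1)) := rfl

theorem tab_succ (T : ℕ) (h : Hist) (d : Dt) (i : ℕ) : tab T h d (i+1) =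
  ((List.range (LC T / LC (i+1))).map (phiS h d i (tab T h d i)),
      (List.range (LC T)).map (sS i (tab T h d i))) := rfl

def PhiC (T : ℕ) (h : Hist) (d : Dt) (i q : ℕ) : Qc := (tab T h d i).1.getD q (qnat 0)
def SC (T : ℕ) (h : Hist) (d : Dt) (i x : ℕ) : Qc := (tab T h d i).2.getD x (qnat 0)
def FC (T : ℕ) (h : Hist) (d : Dt) (i q : ℕ) : Qc := fQ i (PhiC T h d i q)
def GC (T : ℕ) (h : Hist) (d : Dt) (i q : ℕ) : Qc := gQ i (PhiC T h d i q)
def PiC (T : ℕ) (h : Hist) (d : Dt) (j x : ℕ) : Qc :=
  Nat.rec (qnat 1) (fun l c => if l < j then c else qmul c (GC T h d l (x / LC l))) T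

/-! ### values -/

theorem LC_dvd {i T : ℕ} (h : i ≤ T) : LC i ∣ LC T := by
  induction T, h using Nat.le_induction with
  | base => exact dvd_rfl
  | succ T _ ih =>
    have h1 : LC (T+1) = LC T * NC T := rfl
    rw [h1]; exact Dvd.dvd.mul_right ih _

theorem lt_LC_div {i T q : ℕ} (h : i ≤ T) (hq : q * LC i < LC T) : q < LC T / LC i := by
  obtain ⟨c, hc⟩ := LC_dvd h
  rw [hc, Nat.mul_div_cancel_left _ (LC_pos i)]
  rw [hc, mul_comm (LC i)] at hq
  exact Nat.lt_of_mul_lt_mul_right hq

theorem getD_map_range (n k : ℕ) (f : ℕ → Qc) (d : Qc) (h : k < n) :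
    ((List.range n).map f).getD k d = f k := by
  rw [List.getD_eq_getElem?_getD, List.getElem?_map, List.getElem?_range h]
  rfl

theorem win_sum_range {P : Par} (i q : ℕ) (f : ℕ → ℚ) :
    ∑ x ∈ win P i q, f x = ∑ y ∈ Finset.range (P.L i), f (q * P.L i + y) := by
  rw [win, Finset.sum_Ico_eq_sum_range]
  have : (q + 1) * P.L i - q * P.L i = P.L i := by
    have : (q+1) * P.L i = q * P.L i + P.L i := by ring
    omega
  rw [this]

theorem kids_sum_range {P : Par} (i q : ℕ) (f : ℕ → ℚ) :
    ∑ x ∈ kids P i q, f x = ∑ y ∈ Finset.range (P.N i), f (q * P.N i + y) := by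
  rw [kids, Finset.sum_Ico_eq_sum_range]
  have : (q + 1) * P.N i - q * P.N i = P.N i := by
    have : (q+1) * P.N i = q * P.N i + P.N i := by ring
    omega
  rw [this]

theorem card_M_win {P : Par} (h : Hist) (q : ℕ) (hL : P.L 0 = L0C) :
    ((Mlist h).toFinset ∩ win P 0 q).card =
      ncount L0C (fun y => decide (q * L0C + y ∈ Mlist h)) := by
  rw [ncount_eq]
  have h1 : (Mlist h).toFinset ∩ win P 0 q =
      ((Finset.range L0C).filter (fun y => decide (q * L0C + y ∈ Mlist h) = true)).image
        (fun y => q * L0C + y) := by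
    ext x
    simp only [Finset.mem_inter, List.mem_toFinset, win, Finset.mem_Ico, Finset.mem_image,
      Finset.mem_filter, Finset.mem_range, decide_eq_true_eq, hL]
    have e1 : (q+1) * L0C = q * L0C + L0C := by ring
    constructor
    · rintro ⟨h1, h2, h3⟩
      refine ⟨x - q * L0C, ⟨by omega, ?_⟩, by omega⟩
      have : q * L0C + (x - q * L0C) = x := by omega
      rw [this]; exact h1
    · rintro ⟨y, ⟨h1, h2⟩, rfl⟩
      exact ⟨h2, by omega, by omega⟩
  rw [h1, Finset.card_image_of_injective _ (fun a b hab => by simpa using hab)]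

theorem qv_phi0 {P : Par} (hP : IsC P) (h : Hist) (d : Dt) (q : ℕ) :
    qv (phi0Q h d q) = Phi P (stOf h d) 0 q := by
  have hL : P.L 0 = L0C := by rw [hP.L]; rfl
  have h16 : 0 < qv (qnat 16) := by rw [qv_nat]; norm_num
  rw [Phi_zero]
  unfold phi0Q
  have e1 : ((stOf h d).M ∩ win P 0 q).card =
      ncount L0C (fun y => decide (q * L0C + y ∈ Mlist h)) := card_M_win h q hL
  have e2 : ∑ x ∈ (win P 0 q).filter (fun x => ¬ (x / P.L 0 < (stOf h d).z x / P.L 0)),
      (stOf h d).al x = ∑ y ∈ Finset.range L0C, qv (if (q * L0C + y) / L0C <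
        zOf h (q * L0C + y) / L0C then qnat 0 else alQ d.1 (q * L0C + y)) := by
    rw [Finset.sum_filter, win_sum_range, hL]
    apply Finset.sum_congr rfl
    intro y _
    by_cases hc : (q * L0C + y) / L0C < zOf h (q * L0C + y) / L0C
    · have hc' : (q * L0C + y) / L0C < (stOf h d).z (q * L0C + y) / L0C := hc
      rw [if_pos hc, if_neg (not_not.2 hc'), qv_nat]
      norm_num
    · have hc' : ¬ (q * L0C + y) / L0C < (stOf h d).z (q * L0C + y) / L0C := hc
      rw [if_neg hc, if_pos hc', qv_alQ]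
      rfl
  rw [qv_sub, qv_add, qv_nat, qv_div _ _ h16, qv_nat, qv_nat, qv_sum, e1, e2, hL]
  norm_num

theorem tab_value {P : Par} (hP : IsC P) (T : ℕ) (h : Hist) (d : Dt) (i : ℕ) :
    (i ≤ T → ∀ q, q * LC i < LC T → qv (PhiC T h d i q) = Phi P (stOf h d) i q) ∧
    (i ≤ T + 1 → ∀ x, x < LC T → qv (SC T h d i x) = S P (stOf h d) i x) := by
  induction i with
  | zero =>
    constructor
    · intro _ q hq
      unfold PhiC
      rw [tab_zero]
      rw [getD_map_range _ _ _ _ (lt_LC_div (Nat.zero_le T) hq), qv_phi0 hP]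
    · intro _ x hx
      unfold SC
      rw [tab_zero]
      rw [getD_map_range _ _ _ _ hx, qv_nat, S_zero]
      norm_num
  | succ i ih =>
    have hS : i ≤ T → ∀ x, x < LC T → qv (sS i (tab T h d i) x) = S P (stOf h d) (i+1) x := by
      intro hi x hx
      have h1 := ih.1 hi (x / LC i) (lt_of_le_of_lt (Nat.div_mul_le_self _ _) hx)
      have h2 := ih.2 (by omega) x hx
      unfold PhiC at h1
      unfold SC at h2
      unfold sS
      rw [qv_mul, qv_g, h1, h2, S_succ, Gs, hP.g, hP.L]
    constructor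
    · intro hi q hq
      unfold PhiC
      rw [tab_succ]
      rw [getD_map_range _ _ _ _ (lt_LC_div hi hq)]
      have hwin : q * LC (i+1) + LC (i+1) ≤ LC T := by
        obtain ⟨c, hc⟩ := LC_dvd hi
        rw [hc, mul_comm (LC (i+1))] at hq ⊢
        have h1 : q < c := Nat.lt_of_mul_lt_mul_right hq
        calc q * LC (i+1) + LC (i+1) = (q+1) * LC (i+1) := by ring
          _ ≤ c * LC (i+1) := Nat.mul_le_mul_right _ h1
      have hLs : LC (i+1) = LC i * NC i := rfl
      rw [Phi_succ]
      unfold phiS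
      have hg : 0 < qv (gamQ (i+1)) := by rw [qv_gam]; exact gamC_pos _
      rw [qv_sub, qv_add, qv_mul, qv_sub, qv_nat, qv_nat, qv_w, qv_div _ _ hg, qv_gam, qv_sum,
        qv_sum, kids_sum_range, Finset.sum_filter, win_sum_range, hP.N, hP.Z, hP.L, hP.w, hP.gam]
      congr 1
      · congr 1
        · apply Finset.sum_congr rfl
          intro r hr
          rw [Finset.mem_range] at hr
          have h1 := ih.1 (by omega) (q * NC i + r) (by
            have h3 : (q * NC i + r + 1) * LC i ≤ (q * NC i + NC i) * LC i :=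
              Nat.mul_le_mul_right _ (by omega)
            have h4 : (q * NC i + NC i) * LC i = q * LC (i+1) + LC (i+1) := by
              rw [hLs]; ring
            have h5 : (q * NC i + r + 1) * LC i = (q * NC i + r) * LC i + LC i := by ring
            have h6 := LC_pos i
            omega)
          unfold PhiC at h1
          rw [qv_f, h1, F, hP.f]
        · rw [czc_eq]
          congr 1
          have e1 : (stOf h d).zc (i+1) q = zcOf d.2 (i+1) q := rfl
          rw [e1]
          push_cast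
          ring
      · congr 1
        apply Finset.sum_congr rfl
        intro y hy
        rw [Finset.mem_range] at hy
        have hx : q * LC (i+1) + y < LC T := by omega
        have h1 := hS (by omega) _ hx
        by_cases hc : ((q * LC (i+1) + y) / LC i < zOf h (q * LC (i+1) + y) / LC i ∧
            ¬ ((q * LC (i+1) + y) / LC (i+1) < zOf h (q * LC (i+1) + y) / LC (i+1)))
        · have hc' : ((q * LC (i+1) + y) / LC i < (stOf h d).z (q * LC (i+1) + y) / LC i ∧
            ¬ ((q * LC (i+1) + y) / LC (i+1) < (stOf h d).z (q * LC (i+1) + y) / LC (i+1))) := hc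
          rw [if_pos hc, if_pos hc', qv_mul, h1, qv_alQ]
          rfl
        · have hc' : ¬ ((q * LC (i+1) + y) / LC i < (stOf h d).z (q * LC (i+1) + y) / LC i ∧
            ¬ ((q * LC (i+1) + y) / LC (i+1) < (stOf h d).z (q * LC (i+1) + y) / LC (i+1))) := hc
          rw [if_neg hc, if_neg hc', qv_nat]
          norm_num
    · intro hi x hx
      unfold SC
      rw [tab_succ]
      rw [getD_map_range _ _ _ _ hx]
      exact hS (by omega) x hx

theorem qv_Phi {P : Par} (hP : IsC P) {T i q : ℕ} {h : Hist} {d : Dt} (hi : i ≤ T)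
    (hq : q * LC i < LC T) : qv (PhiC T h d i q) = Phi P (stOf h d) i q :=
  (tab_value hP T h d i).1 hi q hq

theorem qv_S {P : Par} (hP : IsC P) {T i x : ℕ} {h : Hist} {d : Dt} (hi : i ≤ T + 1)
    (hx : x < LC T) : qv (SC T h d i x) = S P (stOf h d) i x :=
  (tab_value hP T h d i).2 hi x hx

theorem qv_F {P : Par} (hP : IsC P) {T i q : ℕ} {h : Hist} {d : Dt} (hi : i ≤ T)
    (hq : q * LC i < LC T) : qv (FC T h d i q) = F P (stOf h d) i q := by
  unfold FC
  rw [qv_f, qv_Phi hP hi hq, F, hP.f]

theorem qv_G {P : Par} (hP : IsC P) {T i q : ℕ} {h : Hist} {d : Dt} (hi : i ≤ T)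
    (hq : q * LC i < LC T) : qv (GC T h d i q) = Gs P (stOf h d) i q := by
  unfold GC
  rw [qv_g, qv_Phi hP hi hq, Gs, hP.g]

theorem qv_Pi {P : Par} (hP : IsC P) {T j x : ℕ} {h : Hist} {d : Dt} (hx : x < LC T) :
    qv (PiC T h d j x) = Pi' P (stOf h d) j T x := by
  have key : ∀ m, m ≤ T → qv (Nat.rec (motive := fun _ => Qc) (qnat 1)
      (fun l c => if l < j then c else qmul c (GC T h d l (x / LC l))) m) =
      ∏ l ∈ Finset.Ico j m, Gs P (stOf h d) l (x / P.L l) := by
    intro m
    induction m with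
    | zero =>
      intro _
      change qv (qnat 1) = _
      rw [qv_nat, Finset.Ico_eq_empty (by omega), Finset.prod_empty]
      norm_num
    | succ m ih =>
      intro hm
      change qv (if m < j then _ else qmul _ (GC T h d m (x / LC m))) = _
      by_cases hj : m < j
      · rw [if_pos hj, ih (by omega)]
        rw [Finset.Ico_eq_empty (by omega), Finset.Ico_eq_empty (by omega)]
      · rw [if_neg hj, qv_mul, ih (by omega), Finset.prod_Ico_succ_top (by omega),
          qv_G hP (by omega) (lt_of_le_of_lt (Nat.div_mul_le_self _ _) hx), hP.L]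
  exact key T le_rfl

/-! ### primitive recursiveness -/

section prim

variable {α : Type*} [Primcodable α]

theorem prim_phi0Q {h : α → Hist} {d : α → Dt} {q : α → ℕ} (hh : Primrec h) (hd : Primrec d)
    (hq : Primrec q) : Primrec (fun x => phi0Q (h x) (d x) (q x)) := by
  unfold phi0Q
  have hpos : Primrec (fun p : α × ℕ => q p.1 * L0C + p.2) :=
    prim_add (prim_mul (hq.comp Primrec.fst) (prim_const _)) Primrec.snd
  have hh' : Primrec (fun p : α × ℕ => h p.1) := hh.comp Primrec.fst
  refine prim_qsub (prim_qadd (prim_qnat ?_) (Primrec.const _)) ?_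
  · refine prim_ncount (prim_const _) ?_
    exact primrecPred_iff_primrec_decide.1 (prim_memM hh' hpos)
  · refine prim_qsum (prim_const _) ?_
    refine Primrec.ite ?_ (Primrec.const _) ?_
    · exact Primrec.nat_lt.comp (prim_div hpos (prim_const _))
        (prim_div (prim_zOf hh' hpos) (prim_const _))
    · exact prim_alQ ((Primrec.fst.comp hd).comp Primrec.fst) hpos

theorem prim_sS {i : α → ℕ} {p : α → List Qc × List Qc} {n : α → ℕ} (hi : Primrec i)
    (hp : Primrec p) (hn : Primrec n) : Primrec (fun x => sS (i x) (p x) (n x)) := by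
  unfold sS
  exact prim_qmul (prim_gQ hi ((Primrec.list_getD _).comp (Primrec.fst.comp hp)
    (prim_div hn (prim_LC hi)))) ((Primrec.list_getD _).comp (Primrec.snd.comp hp) hn)

theorem prim_phiS {h : α → Hist} {d : α → Dt} {i : α → ℕ} {p : α → List Qc × List Qc}
    {q : α → ℕ} (hh : Primrec h) (hd : Primrec d) (hi : Primrec i)
    (hp : Primrec p) (hq : Primrec q) :
    Primrec (fun x => phiS (h x) (d x) (i x) (p x) (q x)) := by
  unfold phiS
  have hi1 : Primrec (fun x => i x + 1) := prim_succ hi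
  have hi' : Primrec (fun y : α × ℕ => i y.1) := hi.comp Primrec.fst
  have hi1' : Primrec (fun y : α × ℕ => i y.1 + 1) := prim_succ hi'
  have hp' : Primrec (fun y : α × ℕ => p y.1) := hp.comp Primrec.fst
  have hq' : Primrec (fun y : α × ℕ => q y.1) := hq.comp Primrec.fst
  have hh' : Primrec (fun y : α × ℕ => h y.1) := hh.comp Primrec.fst
  have hd' : Primrec (fun y : α × ℕ => (d y.1).1) := (Primrec.fst.comp hd).comp Primrec.fst
  have hpos : Primrec (fun y : α × ℕ => q y.1 * LC (i y.1 + 1) + y.2) :=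
    prim_add (prim_mul hq' (prim_LC hi1')) Primrec.snd
  refine prim_qsub (prim_qadd ?_ (prim_qmul (prim_wQ hi) (prim_qsub (prim_qnat ?_)
    (prim_qnat (prim_czc (Primrec.snd.comp hd) hi1 hq))))) (prim_qdiv ?_ (prim_gamQ hi1))
  · refine prim_qsum (prim_NC hi) ?_
    exact prim_fQ hi' ((Primrec.list_getD _).comp (Primrec.fst.comp hp')
      (prim_add (prim_mul hq' (prim_NC hi')) Primrec.snd))
  · exact prim_mul (prim_const _) (prim_mul (prim_ZC hi) (prim_LC hi))
  · refine prim_qsum (prim_LC hi1) ?_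
    refine Primrec.ite ?_ (prim_qmul (prim_alQ hd' hpos) (prim_sS hi' hp' hpos)) (Primrec.const _)
    have hz := prim_zOf hh' hpos
    exact PrimrecPred.and
      (Primrec.nat_lt.comp (prim_div hpos (prim_LC hi')) (prim_div hz (prim_LC hi')))
      (PrimrecPred.not
        (Primrec.nat_lt.comp (prim_div hpos (prim_LC hi1')) (prim_div hz (prim_LC hi1'))))

theorem prim_tab {T : α → ℕ} {h : α → Hist} {d : α → Dt} {i : α → ℕ} (hT : Primrec T)
    (hh : Primrec h) (hd : Primrec d) (hi : Primrec i) :
    Primrec (fun x => tab (T x) (h x) (d x) (i x)) := by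
  unfold tab
  have h0 : Primrec (fun x => (((List.range (LC (T x) / LC 0)).map (phi0Q (h x) (d x)),
      (List.range (LC (T x))).map (fun _ => qnat 1)) : List Qc × List Qc)) := by
    refine Primrec.pair ?_ ?_
    · refine Primrec.list_map (Primrec.list_range.comp (prim_div (prim_LC hT) (prim_const _))) ?_
      exact prim_phi0Q (hh.comp Primrec.fst) (hd.comp Primrec.fst) Primrec.snd
    · exact Primrec.list_map (Primrec.list_range.comp (prim_LC hT)) (Primrec.const _)
  have h2 : Primrec₂ (fun (x : α) (p : ℕ × (List Qc × List Qc)) =>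
      (((List.range (LC (T x) / LC (p.1+1))).map (phiS (h x) (d x) p.1 p.2),
      (List.range (LC (T x))).map (sS p.1 p.2)) : List Qc × List Qc)) := by
    have hT' : Primrec (fun y : α × (ℕ × (List Qc × List Qc)) => T y.1) := hT.comp Primrec.fst
    have hk : Primrec (fun y : α × (ℕ × (List Qc × List Qc)) => y.2.1) :=
      Primrec.fst.comp Primrec.snd
    have hp : Primrec (fun y : α × (ℕ × (List Qc × List Qc)) => y.2.2) :=
      Primrec.snd.comp Primrec.snd
    refine Primrec.pair ?_ ?_
    · refine Primrec.list_map (Primrec.list_range.comp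
        (prim_div (prim_LC hT') (prim_LC (prim_succ hk)))) ?_
      exact prim_phiS ((hh.comp Primrec.fst).comp Primrec.fst)
        ((hd.comp Primrec.fst).comp Primrec.fst) (hk.comp Primrec.fst) (hp.comp Primrec.fst)
        Primrec.snd
    · refine Primrec.list_map (Primrec.list_range.comp (prim_LC hT')) ?_
      exact prim_sS (hk.comp Primrec.fst) (hp.comp Primrec.fst) Primrec.snd
  exact Primrec.nat_rec' (f := i) hi h0 h2

theorem prim_PhiC {T : α → ℕ} {h : α → Hist} {d : α → Dt} {i q : α → ℕ} (hT : Primrec T)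
    (hh : Primrec h) (hd : Primrec d) (hi : Primrec i) (hq : Primrec q) :
    Primrec (fun x => PhiC (T x) (h x) (d x) (i x) (q x)) :=
  (Primrec.list_getD _).comp (Primrec.fst.comp (prim_tab hT hh hd hi)) hq

theorem prim_SC {T : α → ℕ} {h : α → Hist} {d : α → Dt} {i q : α → ℕ} (hT : Primrec T)
    (hh : Primrec h) (hd : Primrec d) (hi : Primrec i) (hq : Primrec q) :
    Primrec (fun x => SC (T x) (h x) (d x) (i x) (q x)) :=
  (Primrec.list_getD _).comp (Primrec.snd.comp (prim_tab hT hh hd hi)) hq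

theorem prim_FC {T : α → ℕ} {h : α → Hist} {d : α → Dt} {i q : α → ℕ} (hT : Primrec T)
    (hh : Primrec h) (hd : Primrec d) (hi : Primrec i) (hq : Primrec q) :
    Primrec (fun x => FC (T x) (h x) (d x) (i x) (q x)) :=
  prim_fQ hi (prim_PhiC hT hh hd hi hq)

theorem prim_GC {T : α → ℕ} {h : α → Hist} {d : α → Dt} {i q : α → ℕ} (hT : Primrec T)
    (hh : Primrec h) (hd : Primrec d) (hi : Primrec i) (hq : Primrec q) :
    Primrec (fun x => GC (T x) (h x) (d x) (i x) (q x)) :=
  prim_gQ hi (prim_PhiC hT hh hd hi hq)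

theorem prim_PiC {T : α → ℕ} {h : α → Hist} {d : α → Dt} {j q : α → ℕ} (hT : Primrec T)
    (hh : Primrec h) (hd : Primrec d) (hj : Primrec j) (hq : Primrec q) :
    Primrec (fun x => PiC (T x) (h x) (d x) (j x) (q x)) := by
  unfold PiC
  have hl : Primrec (fun y : α × (ℕ × Qc) => y.2.1) := Primrec.fst.comp Primrec.snd
  have hc : Primrec (fun y : α × (ℕ × Qc) => y.2.2) := Primrec.snd.comp Primrec.snd
  have h2 : Primrec₂ (fun (x : α) (p : ℕ × Qc) => if p.1 < j x then p.2 else
      qmul p.2 (GC (T x) (h x) (d x) p.1 (q x / LC p.1))) := by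
    refine Primrec.ite (Primrec.nat_lt.comp hl (hj.comp Primrec.fst)) hc ?_
    exact prim_qmul hc (prim_GC (hT.comp Primrec.fst) (hh.comp Primrec.fst)
      (hd.comp Primrec.fst) hl (prim_div (hq.comp Primrec.fst) (prim_LC hl)))
  exact Primrec.nat_rec' (f := T) hT (Primrec.const _) h2

end prim

end Pool.Agent.Helper205.QA
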